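import Mathlib

/-!
# Job DM D9 (helper59): an entry of the adjugate has smaller order along a prime
-/

set_option autoImplicit false

open MvPolynomial

namespace Pool.Agent.L5helper59.DM

/-- D9 -/
theorem exists_entry {τ : Type} (P : MvPolynomial τ ℂ) (hP : Prime P) {M : ℕ}
    (A : Matrix (Fin (M + 1)) (Fin (M + 1)) (MvPolynomial τ ℂ)) (h0 : A.det ≠ 0)
    (hd : P ∣ A.det) :
    ∃ (i j : Fin (M + 1)) (d n : ℕ) (g r : MvPolynomial τ ℂ), 1 ≤ n ∧ A.det = g * P ^ (d + n) ∧
      A.adjugate i j = r * P ^ d ∧ ¬ P ∣ g ∧ ¬ P ∣ r := by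
  obtain ⟨e, g, hg, hdet⟩ := WfDvdMonoid.max_power_factor h0 hP.irreducible
  obtain ⟨i, j, hij⟩ : ∃ i j, ¬ P ^ e ∣ A.adjugate i j := by
    by_contra hcon
    push Not at hcon
    choose B hB using hcon
    have h1 : A * Matrix.of B =
        g • (1 : Matrix (Fin (M + 1)) (Fin (M + 1)) (MvPolynomial τ ℂ)) := by
      ext1 i j
      apply mul_left_cancel₀ (pow_ne_zero e hP.ne_zero)
      have h2 := congrFun (congrFun (Matrix.mul_adjugate A) i) j
      rw [Matrix.mul_apply, Matrix.smul_apply, smul_eq_mul, hdet] at h2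
      rw [Matrix.mul_apply, Matrix.smul_apply, smul_eq_mul, Finset.mul_sum, ← mul_assoc, ← h2]
      refine Finset.sum_congr rfl fun l _ => ?_
      rw [hB l j, Matrix.of_apply]
      ring
    have h4 : A.det * (Matrix.of B).det = g ^ (M + 1) := by
      rw [← Matrix.det_mul, h1, Matrix.det_smul, Matrix.det_one, mul_one, Fintype.card_fin]
    have h5 : P ∣ g ^ (M + 1) := h4 ▸ hd.mul_right _
    exact hg (hP.dvd_of_dvd_pow h5)
  have hne : A.adjugate i j ≠ 0 := fun h => hij (h ▸ dvd_zero _)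
  obtain ⟨d, r, hr, hadj⟩ := WfDvdMonoid.max_power_factor hne hP.irreducible
  have hde : d < e := by
    by_contra hc
    push Not at hc
    exact hij (hadj ▸ (pow_dvd_pow P hc).mul_right r)
  refine ⟨i, j, d, e - d, g, r, by omega, ?_, by rw [hadj, mul_comm], hg, hr⟩
  rw [hdet, mul_comm, show d + (e - d) = e by omega]

end Pool.Agent.L5helper59.DM
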